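import Pool.Agent.Work.MP_6d8919_an.Final
import Pool.Agent.Work.MP_6d8919_an.Cosh

/-!
# MP_6d8919_an, Q1: the spectrum of differentiation on `E_ω`

`E_ω` (`Space ω σ`) is the space of entire functions `f` of exponential type `≤ σ` with
`‖f‖ = sup_{x ∈ ℝ} |f(x)/ω(x)| < ∞`.  For every `ω` as in the setting of the problem, without zeros
in the open upper half-plane, `spec(D) = {α + iβ : α - iτ ∈ Clu ω for some τ ≥ |β|}`, where `Clu ω`
is the set of cluster values of `ω'(z)/ω(z)` as `Im z → +∞`; it is also the set `Adm ω` of all `λ`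
such that on arbitrarily large half-discs `x + {|z| ≤ R, Im z ≥ 0}`, `x ∈ ℝ`,
`|ω(x+z)| ≥ e^{-ε} |ω(x)| exp(Re λ · Re z + |Im λ| · Im z)`.

The second part records that zeros of `ω` in the open upper half-plane must be excluded: for
`ω = cosh` the written hypotheses hold, but the listed fact `‖D‖ = ‖ω'‖` fails.
-/

open Complex
open Pool.Agent.Work.MP_6d8919_an

namespace Pool.Agent.Results.MP_6d8919_an.Spectrum

theorem result :
    (∀ (ω : ℂ → ℂ) (σ : ℝ), Setting ω σ →
      CompleteSpace (Space ω σ) ∧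
      ∃ D : Space ω σ →L[ℂ] Space ω σ, (∀ f : Space ω σ, (D f).fn = deriv f.fn) ∧
        spectrum ℂ D = {l : ℂ | ∃ τ : ℝ, |l.im| ≤ τ ∧ (⟨l.re, -τ⟩ : ℂ) ∈ Clu ω} ∧
        spectrum ℂ D = Adm ω) ∧
    CoshExample :=
  ⟨fun _ _ h => spectrum_final h, coshExample⟩

end Pool.Agent.Results.MP_6d8919_an.Spectrum
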